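import Pool.Agent.W533.V.Defs

set_option autoImplicit false
set_option linter.all false

open Finset

namespace Pool.Agent.W347.UP

open Pool.Agent.W533.V

theorem mgf {β : Type} [Fintype β] [DecidableEq β] (c : β → ℝ) :
    ∑ x : β → Bool, Real.exp (∑ b, c b * sg (x b)) = ∏ b, (2 * Real.cosh (c b)) := by
  have h1 : ∀ b, 2 * Real.cosh (c b) = ∑ e : Bool, Real.exp (c b * sg e) := by
    intro b
    rw [Fintype.sum_bool, Real.cosh_eq]
    simp only [sg, if_true, Bool.false_eq_true, if_false, mul_one, mul_neg]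
    ring
  simp_rw [h1]
  rw [Finset.prod_univ_sum, Fintype.piFinset_univ]
  refine Finset.sum_congr rfl fun x _ => ?_
  rw [Real.exp_sum]

theorem mgf_le {β : Type} [Fintype β] [DecidableEq β] (c : β → ℝ) :
    ∑ x : β → Bool, Real.exp (∑ b, c b * sg (x b)) ≤
      2 ^ Fintype.card β * Real.exp ((∑ b, c b ^ 2) / 2) := by
  rw [mgf, Finset.prod_mul_distrib, Finset.prod_const, Finset.card_univ, Finset.sum_div,
    Real.exp_sum]
  apply mul_le_mul_of_nonneg_left _ (by positivity)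
  apply Finset.prod_le_prod
  · intro b _; exact (Real.cosh_pos _).le
  · intro b _; exact Real.cosh_le_exp_half_sq _

theorem sum_cosh_le {β : Type} [Fintype β] [DecidableEq β] (c : β → ℝ) :
    ∑ x : β → Bool, Real.cosh (∑ b, c b * sg (x b)) ≤
      2 ^ Fintype.card β * Real.exp ((∑ b, c b ^ 2) / 2) := by
  have h1 := mgf_le c
  have h2 := mgf_le (fun b => - c b)
  simp only [neg_sq, neg_mul, Finset.sum_neg_distrib] at h2
  simp_rw [Real.cosh_eq]
  rw [← Finset.sum_div, Finset.sum_add_distrib]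
  linarith

theorem pow_le_cosh (p : ℝ) (hp : 0 < p) (y : ℝ) :
    |y| ^ p ≤ 2 * (Nat.factorial ⌈p⌉₊ : ℝ) * Real.cosh y := by
  have hf : (1 : ℝ) ≤ (Nat.factorial ⌈p⌉₊ : ℝ) := by
    exact_mod_cast Nat.one_le_iff_ne_zero.mpr (Nat.factorial_ne_zero _)
  have hc : 1 ≤ Real.cosh y := Real.one_le_cosh y
  rcases le_total |y| 1 with h | h
  · have h1 : |y| ^ p ≤ 1 := Real.rpow_le_one (abs_nonneg y) h hp.le
    nlinarith
  · have h1 : |y| ^ p ≤ |y| ^ (⌈p⌉₊ : ℝ) := Real.rpow_le_rpow_of_exponent_le h (Nat.le_ceil p)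
    rw [Real.rpow_natCast] at h1
    have h2 := Real.pow_div_factorial_le_exp |y| (abs_nonneg y) ⌈p⌉₊
    rw [div_le_iff₀ (by linarith)] at h2
    have h3 : Real.exp |y| ≤ 2 * Real.cosh y := by
      rw [← Real.cosh_abs, Real.cosh_eq]
      have := Real.exp_pos (-|y|)
      linarith
    calc |y| ^ p ≤ Real.exp |y| * (Nat.factorial ⌈p⌉₊ : ℝ) := h1.trans h2
      _ ≤ (2 * Real.cosh y) * (Nat.factorial ⌈p⌉₊ : ℝ) := by
          apply mul_le_mul_of_nonneg_right h3; linarith
      _ = _ := by ring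

theorem khin : S_Khin := by
  intro p hp
  refine ⟨2 * (Nat.factorial ⌈p⌉₊ : ℝ) * Real.exp (1 / 2), by positivity, ?_⟩
  intro β _ _ c
  set V : ℝ := ∑ b, c b ^ 2 with hV
  have hV0 : 0 ≤ V := Finset.sum_nonneg fun b _ => sq_nonneg _
  rcases hV0.lt_or_eq with hpos | hzero
  · have hs : 0 < Real.sqrt V := Real.sqrt_pos.mpr hpos
    set c' : β → ℝ := fun b => c b / Real.sqrt V with hc'
    have hsum : ∑ b, c' b ^ 2 = 1 := by
      simp only [hc', div_pow, Real.sq_sqrt hV0]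
      rw [← Finset.sum_div, ← hV, div_self hpos.ne']
    have h1 : ∀ x : β → Bool, |∑ b, c b * sg (x b)| ^ p =
        V ^ (p / 2) * |∑ b, c' b * sg (x b)| ^ p := by
      intro x
      have h2 : ∑ b, c b * sg (x b) = Real.sqrt V * ∑ b, c' b * sg (x b) := by
        rw [Finset.mul_sum]
        refine Finset.sum_congr rfl fun b _ => ?_
        simp only [hc']
        field_simp
      rw [h2, abs_mul, abs_of_pos hs, Real.mul_rpow hs.le (abs_nonneg _)]
      congr 1
      rw [Real.sqrt_eq_rpow, ← Real.rpow_mul hV0]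
      congr 1
      ring
    simp_rw [h1]
    rw [← Finset.mul_sum]
    have h3 : ∑ x : β → Bool, |∑ b, c' b * sg (x b)| ^ p ≤
        2 * (Nat.factorial ⌈p⌉₊ : ℝ) * (2 ^ Fintype.card β * Real.exp (1 / 2)) := by
      have h4 := sum_cosh_le c'
      rw [hsum] at h4
      calc _ ≤ ∑ x : β → Bool, 2 * (Nat.factorial ⌈p⌉₊ : ℝ) * Real.cosh (∑ b, c' b * sg (x b)) :=
            Finset.sum_le_sum fun x _ => pow_le_cosh p hp _
        _ = 2 * (Nat.factorial ⌈p⌉₊ : ℝ) * ∑ x : β → Bool, Real.cosh (∑ b, c' b * sg (x b)) := by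
            rw [Finset.mul_sum]
        _ ≤ _ := mul_le_mul_of_nonneg_left h4 (by positivity)
    have hVp : 0 ≤ V ^ (p / 2) := Real.rpow_nonneg hV0 _
    calc V ^ (p / 2) * ∑ x : β → Bool, |∑ b, c' b * sg (x b)| ^ p
        ≤ V ^ (p / 2) * (2 * (Nat.factorial ⌈p⌉₊ : ℝ) * (2 ^ Fintype.card β * Real.exp (1 / 2))) :=
          mul_le_mul_of_nonneg_left h3 hVp
      _ = _ := by ring
  · have hc0 : ∀ b, c b = 0 := by
      intro b
      have h1 := (Finset.sum_eq_zero_iff_of_nonneg (fun b _ => sq_nonneg (c b))).mp hzero.symm b (Finset.mem_univ b)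
      exact pow_eq_zero_iff (two_ne_zero) |>.mp h1
    have h1 : ∑ x : β → Bool, |∑ b, c b * sg (x b)| ^ p = 0 := by
      apply Finset.sum_eq_zero
      intro x _
      have : ∑ b, c b * sg (x b) = 0 := Finset.sum_eq_zero fun b _ => by rw [hc0 b, zero_mul]
      rw [this, abs_zero, Real.zero_rpow hp.ne']
    rw [h1]
    have : 0 ≤ V ^ (p / 2) := Real.rpow_nonneg hV0 _
    positivity

end Pool.Agent.W347.UP
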