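import Pool.Agent.W533.V.Defs

set_option autoImplicit false
set_option linter.all false

open Finset

namespace Pool.Agent.W347.UP

open Pool.Agent.W533.V

/-- Markov inequality with an exponential, for counting measures -/
theorem markov {α : Type} [Fintype α] (S : α → ℝ) (a lam : ℝ) (hl : 0 ≤ lam)
    [DecidablePred fun W => a < S W] :
    (((Finset.univ : Finset α).filter fun W => a < S W).card : ℝ) ≤
      Real.exp (-(lam * a)) * ∑ W, Real.exp (lam * S W) := by
  rw [Finset.mul_sum, Finset.card_eq_sum_ones, Nat.cast_sum, Finset.sum_filter]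
  refine Finset.sum_le_sum fun W _ => ?_
  rw [← Real.exp_add]
  split_ifs with h
  · simp only [Nat.cast_one]
    rw [Real.one_le_exp_iff]
    nlinarith
  · positivity

/-- independent rows -/
theorem rows_pow (n N : ℕ) (g : (Fin n → Bool) → ℝ) :
    ∑ W : Fin N × Fin n → Bool, ∏ i, g (fun j => W (i, j)) = (∑ w, g w) ^ N := by
  rw [Fintype.sum_pow]
  exact Fintype.sum_equiv (Equiv.curry (Fin N) (Fin n) Bool) _ _ fun W => rfl

/-- independent columns -/
theorem cols_pow (n N : ℕ) (g : (Fin N → Bool) → ℝ) :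
    ∑ W : Fin N × Fin n → Bool, ∏ j, g (fun i => W (i, j)) = (∑ w, g w) ^ n := by
  rw [Fintype.sum_pow]
  refine Fintype.sum_equiv
    ((Equiv.arrowCongr (Equiv.prodComm (Fin N) (Fin n)) (Equiv.refl Bool)).trans
      (Equiv.curry (Fin n) (Fin N) Bool)) _ _ fun W => rfl

theorem exp_chord (lam B y : ℝ) (hB : 0 < B) (hy : |y| ≤ B) :
    Real.exp (lam * y) ≤ Real.cosh (lam * B) + y / B * Real.sinh (lam * B) := by
  obtain ⟨h1, h2⟩ := abs_le.mp hy
  have hconv := convexOn_exp.2 (Set.mem_univ (lam * B)) (Set.mem_univ (-(lam * B)))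
    (show 0 ≤ (B + y) / (2 * B) by apply div_nonneg <;> linarith)
    (show 0 ≤ (B - y) / (2 * B) by apply div_nonneg <;> linarith)
    (by field_simp; ring)
  simp only [smul_eq_mul] at hconv
  have h3 : (B + y) / (2 * B) * (lam * B) + (B - y) / (2 * B) * (-(lam * B)) = lam * y := by
    field_simp; ring
  rw [h3] at hconv
  refine hconv.trans (le_of_eq ?_)
  rw [Real.cosh_eq, Real.sinh_eq]
  field_simp
  ring

/-- one-sided Hoeffding inequality -/
theorem hoeff (n N : ℕ) (Y : (Fin n → Bool) → ℝ) (B ε : ℝ) (hB : 0 < B) (hε : 0 < ε)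
    (hY : ∀ w, |Y w| ≤ B) (h0 : ∑ w, Y w = 0)
    [DecidablePred fun W : Fin N × Fin n → Bool => ε * N < ∑ i, Y (fun j => W (i, j))] :
    (((Finset.univ : Finset (Fin N × Fin n → Bool)).filter fun W =>
      ε * N < ∑ i, Y (fun j => W (i, j))).card : ℝ) ≤
      2 ^ (N * n) * Real.exp (-(ε ^ 2 * N / (2 * B ^ 2))) := by
  set lam : ℝ := ε / B ^ 2 with hlam
  have hl : 0 ≤ lam := by positivity
  refine (markov _ (ε * N) lam hl).trans ?_
  have h1 : ∀ W : Fin N × Fin n → Bool, Real.exp (lam * ∑ i, Y (fun j => W (i, j))) =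
      ∏ i, Real.exp (lam * Y (fun j => W (i, j))) := by
    intro W
    rw [Finset.mul_sum, Real.exp_sum]
  simp_rw [h1]
  rw [rows_pow n N (fun w => Real.exp (lam * Y w))]
  have h2 : ∑ w, Real.exp (lam * Y w) ≤ 2 ^ n * Real.exp ((lam * B) ^ 2 / 2) := by
    calc ∑ w, Real.exp (lam * Y w) ≤ ∑ w : Fin n → Bool, (Real.cosh (lam * B) + Y w / B * Real.sinh (lam * B)) :=
          Finset.sum_le_sum fun w _ => exp_chord lam B (Y w) hB (hY w)
      _ = 2 ^ n * Real.cosh (lam * B) := by
          rw [Finset.sum_add_distrib, ← Finset.sum_mul, ← Finset.sum_div, h0, zero_div, zero_mul,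
            add_zero, Finset.sum_const, Finset.card_univ, nsmul_eq_mul]
          simp
      _ ≤ _ := mul_le_mul_of_nonneg_left (Real.cosh_le_exp_half_sq _) (by positivity)
  have h3 : (∑ w, Real.exp (lam * Y w)) ^ N ≤ (2 ^ n * Real.exp ((lam * B) ^ 2 / 2)) ^ N :=
    pow_le_pow_left₀ (Finset.sum_nonneg fun w _ => (Real.exp_pos _).le) h2 N
  calc Real.exp (-(lam * (ε * N))) * (∑ w, Real.exp (lam * Y w)) ^ N
      ≤ Real.exp (-(lam * (ε * N))) * (2 ^ n * Real.exp ((lam * B) ^ 2 / 2)) ^ N :=
        mul_le_mul_of_nonneg_left h3 (Real.exp_pos _).le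
    _ = 2 ^ (N * n) * Real.exp (-(ε ^ 2 * N / (2 * B ^ 2))) := by
        rw [mul_pow, ← pow_mul, ← Real.exp_nat_mul, mul_left_comm, ← Real.exp_add, mul_comm n N]
        congr 2
        rw [hlam]
        field_simp
        ring

theorem unif : S_Unif := by
  classical
  intro n N H _ X B ε hB hε hX
  rcases Nat.eq_zero_or_pos N with hN | hN
  · subst hN
    by_cases hH : IsEmpty H
    · have : (Finset.univ.filter fun W : Fin 0 × Fin n → Bool =>
          ∃ h : H, ε < |(∑ i, X h (fun j => W (i, j))) / ((0:ℕ) : ℝ) - (∑ w, X h w) / 2 ^ n|) = ∅ := by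
        rw [Finset.filter_eq_empty_iff]
        rintro W _ ⟨h, _⟩
        exact hH.false h
      rw [this]
      simp
    · rw [not_isEmpty_iff] at hH
      have h1 : (((Finset.univ : Finset (Fin 0 × Fin n → Bool)).filter fun W =>
          ∃ h : H, ε < |(∑ i, X h (fun j => W (i, j))) / ((0:ℕ) : ℝ) - (∑ w, X h w) / 2 ^ n|).card : ℝ) ≤ 1 := by
        have : (Finset.univ.filter fun W : Fin 0 × Fin n → Bool =>
          ∃ h : H, ε < |(∑ i, X h (fun j => W (i, j))) / ((0:ℕ) : ℝ) - (∑ w, X h w) / 2 ^ n|).card ≤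
          Fintype.card (Fin 0 × Fin n → Bool) := by
          rw [← Finset.card_univ]; exact Finset.card_filter_le _ _
        have h2 : Fintype.card (Fin 0 × Fin n → Bool) = 1 := by
          rw [Fintype.card_fun, Fintype.card_prod]; simp
        rw [h2] at this
        exact_mod_cast this
      have h3 : (1 : ℝ) ≤ Fintype.card H := by exact_mod_cast Fintype.card_pos
      refine h1.trans ?_
      simp
      linarith
  have hN' : (0 : ℝ) < N := by exact_mod_cast hN
  set m : H → ℝ := fun h => (∑ w, X h w) / 2 ^ n with hm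
  have hm1 : ∀ h, 0 ≤ m h ∧ m h ≤ B := by
    intro h
    constructor
    · exact div_nonneg (Finset.sum_nonneg fun w _ => (hX h w).1) (by positivity)
    · rw [hm]
      show (∑ w, X h w) / 2 ^ n ≤ B
      rw [div_le_iff₀ (by positivity)]
      calc ∑ w, X h w ≤ ∑ w : Fin n → Bool, B := Finset.sum_le_sum fun w _ => (hX h w).2
        _ = B * 2 ^ n := by
          rw [Finset.sum_const, Finset.card_univ, nsmul_eq_mul]; simp [mul_comm]
  have hsumm : ∀ h, ∑ w, (X h w - m h) = 0 := by
    intro h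
    rw [Finset.sum_sub_distrib, Finset.sum_const, Finset.card_univ, nsmul_eq_mul, hm]
    have : (Fintype.card (Fin n → Bool) : ℝ) = 2 ^ n := by simp
    rw [this]
    field_simp
    ring
  have habs : ∀ h w, |X h w - m h| ≤ B := by
    intro h w
    rw [abs_le]
    have h1 := hX h w
    have h2 := hm1 h
    constructor <;> linarith
  have hsub : (Finset.univ.filter fun W : Fin N × Fin n → Bool =>
      ∃ h, ε < |(∑ i, X h (fun j => W (i, j))) / N - (∑ w, X h w) / 2 ^ n|) ⊆
      Finset.univ.biUnion fun h : H =>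
        (Finset.univ.filter fun W : Fin N × Fin n → Bool =>
          ε * N < ∑ i, (fun w => X h w - m h) (fun j => W (i, j))) ∪
        (Finset.univ.filter fun W : Fin N × Fin n → Bool =>
          ε * N < ∑ i, (fun w => -(X h w - m h)) (fun j => W (i, j))) := by
    intro W hW
    obtain ⟨h, hh⟩ := (Finset.mem_filter.mp hW).2
    rw [Finset.mem_biUnion]
    refine ⟨h, Finset.mem_univ _, ?_⟩
    have e1 : (∑ i, X h (fun j => W (i, j))) / N - (∑ w, X h w) / 2 ^ n =
        (∑ i, (X h (fun j => W (i, j)) - m h)) / N := by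
      have e0 : (∑ w, X h w) / 2 ^ n = m h := rfl
      rw [e0, Finset.sum_sub_distrib, Finset.sum_const, Finset.card_univ, Fintype.card_fin, nsmul_eq_mul]
      field_simp
    rw [e1] at hh
    rw [Finset.mem_union, Finset.mem_filter, Finset.mem_filter]
    rcases lt_abs.mp hh with h5 | h5
    · left
      refine ⟨Finset.mem_univ _, ?_⟩
      rw [lt_div_iff₀ hN'] at h5
      exact h5
    · right
      refine ⟨Finset.mem_univ _, ?_⟩
      rw [← neg_div, lt_div_iff₀ hN'] at h5
      rw [Finset.sum_neg_distrib]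
      exact h5
  have hcard := Finset.card_le_card hsub
  have h1 : (((Finset.univ : Finset (Fin N × Fin n → Bool)).filter fun W =>
    ∃ h, ε < |(∑ i, X h (fun j => W (i, j))) / N - (∑ w, X h w) / 2 ^ n|).card : ℝ) ≤
    ∑ h : H, (2 ^ (N * n) * Real.exp (-(ε ^ 2 * N / (2 * B ^ 2))) +
      2 ^ (N * n) * Real.exp (-(ε ^ 2 * N / (2 * B ^ 2)))) := by
    have h2 := hcard.trans (Finset.card_biUnion_le)
    have h3 : (((Finset.univ : Finset (Fin N × Fin n → Bool)).filter fun W =>
      ∃ h, ε < |(∑ i, X h (fun j => W (i, j))) / N - (∑ w, X h w) / 2 ^ n|).card : ℝ) ≤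
      ((∑ h : H, ((Finset.univ.filter fun W : Fin N × Fin n → Bool =>
          ε * N < ∑ i, (fun w => X h w - m h) (fun j => W (i, j))) ∪
        (Finset.univ.filter fun W : Fin N × Fin n → Bool =>
          ε * N < ∑ i, (fun w => -(X h w - m h)) (fun j => W (i, j)))).card : ℕ) : ℝ) := by
      exact_mod_cast h2
    refine h3.trans ?_
    rw [Nat.cast_sum]
    refine Finset.sum_le_sum fun h _ => ?_
    have h4 := Finset.card_union_le (Finset.univ.filter fun W : Fin N × Fin n → Bool =>
          ε * N < ∑ i, (fun w => X h w - m h) (fun j => W (i, j)))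
        (Finset.univ.filter fun W : Fin N × Fin n → Bool =>
          ε * N < ∑ i, (fun w => -(X h w - m h)) (fun j => W (i, j)))
    refine le_trans (Nat.cast_le.mpr h4) ?_
    rw [Nat.cast_add]
    apply add_le_add
    · exact hoeff n N (fun w => X h w - m h) B ε hB hε (habs h) (hsumm h)
    · exact hoeff n N (fun w => -(X h w - m h)) B ε hB hε (fun w => by rw [abs_neg]; exact habs h w)
        (by rw [Finset.sum_neg_distrib, hsumm h, neg_zero])
  refine h1.trans (le_of_eq ?_)
  rw [Finset.sum_const, Finset.card_univ, nsmul_eq_mul]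
  ring

/-- the exponential moment of a product of two different coordinates -/
theorem pair_mgf (N : ℕ) (i l : Fin N) (hil : i ≠ l) (lam : ℝ) :
    ∑ v : Fin N → Bool, Real.exp (lam * (sg (v i) * sg (v l))) = 2 ^ N * Real.cosh lam := by
  classical
  let φ : (Fin N → Bool) → (Fin N → Bool) := fun v => Function.update v i (!(v i))
  have hφ : Function.Involutive φ := by
    intro v
    funext a
    by_cases ha : a = i
    · subst ha; simp [φ]
    · simp [φ, Function.update_of_ne ha]
  have h1 : ∑ v : Fin N → Bool, Real.exp (lam * (sg (v i) * sg (v l))) =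
      ∑ v : Fin N → Bool, Real.exp (lam * (sg ((φ v) i) * sg ((φ v) l))) :=
    (Equiv.sum_comp hφ.toPerm (fun v => Real.exp (lam * (sg (v i) * sg (v l))))).symm
  have hsgn : ∀ b : Bool, sg (!b) = - sg b := by intro b; cases b <;> simp [sg]
  have hsq : ∀ b c : Bool, sg b * sg c = 1 ∨ sg b * sg c = -1 := by
    intro b c; cases b <;> cases c <;> simp [sg]
  have h2 : ∀ v : Fin N → Bool, Real.exp (lam * (sg (v i) * sg (v l))) +
      Real.exp (lam * (sg ((φ v) i) * sg ((φ v) l))) = 2 * Real.cosh lam := by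
    intro v
    have e1 : (φ v) i = !(v i) := by simp [φ]
    have e2 : (φ v) l = v l := by simp [φ, Function.update_of_ne (Ne.symm hil)]
    rw [e1, e2, hsgn, Real.cosh_eq]
    rcases hsq (v i) (v l) with h | h
    · rw [neg_mul, h]; ring_nf
    · rw [neg_mul, h]; ring_nf
  have h3 : 2 * ∑ v : Fin N → Bool, Real.exp (lam * (sg (v i) * sg (v l))) =
      2 * (2 ^ N * Real.cosh lam) := by
    calc 2 * ∑ v : Fin N → Bool, Real.exp (lam * (sg (v i) * sg (v l)))
        = ∑ v : Fin N → Bool, (Real.exp (lam * (sg (v i) * sg (v l))) +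
            Real.exp (lam * (sg ((φ v) i) * sg ((φ v) l)))) := by
          rw [Finset.sum_add_distrib, ← h1]; ring
      _ = ∑ v : Fin N → Bool, 2 * Real.cosh lam := Finset.sum_congr rfl fun v _ => h2 v
      _ = _ := by
          rw [Finset.sum_const, Finset.card_univ, nsmul_eq_mul]
          simp
          ring
  linarith

theorem inc_one (n N : ℕ) (μ : ℝ) (hμ : 0 ≤ μ) (i l : Fin N) (hil : i ≠ l) (s : ℝ)
    (hs : s = 1 ∨ s = -1)
    [DecidablePred fun W : Fin N × Fin n → Bool => μ * n < s * ∑ j, sg (W (i, j)) * sg (W (l, j))] :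
    (((Finset.univ : Finset (Fin N × Fin n → Bool)).filter fun W =>
      μ * n < s * ∑ j, sg (W (i, j)) * sg (W (l, j))).card : ℝ) ≤
      2 ^ (N * n) * Real.exp (-(μ ^ 2 * n / 2)) := by
  refine (markov _ (μ * n) μ hμ).trans ?_
  have h1 : ∀ W : Fin N × Fin n → Bool,
      Real.exp (μ * (s * ∑ j, sg (W (i, j)) * sg (W (l, j)))) =
      ∏ j, (fun v : Fin N → Bool => Real.exp ((μ * s) * (sg (v i) * sg (v l)))) (fun a => W (a, j)) := by
    intro W
    simp only []
    rw [← Real.exp_sum, ← Finset.mul_sum, mul_assoc]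
  simp_rw [h1]
  rw [cols_pow n N (fun v : Fin N → Bool => Real.exp ((μ * s) * (sg (v i) * sg (v l)))),
    pair_mgf N i l hil]
  have h2 : Real.cosh (μ * s) = Real.cosh μ := by
    rcases hs with h | h
    · rw [h, mul_one]
    · rw [h, mul_neg, mul_one, Real.cosh_neg]
  rw [h2]
  have h3 : (2 ^ N * Real.cosh μ) ^ n ≤ (2 ^ N * Real.exp (μ ^ 2 / 2)) ^ n := by
    apply pow_le_pow_left₀
    · have := Real.cosh_pos μ; positivity
    · exact mul_le_mul_of_nonneg_left (Real.cosh_le_exp_half_sq _) (by positivity)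
  calc Real.exp (-(μ * (μ * n))) * (2 ^ N * Real.cosh μ) ^ n
      ≤ Real.exp (-(μ * (μ * n))) * (2 ^ N * Real.exp (μ ^ 2 / 2)) ^ n :=
        mul_le_mul_of_nonneg_left h3 (Real.exp_pos _).le
    _ = _ := by
        rw [mul_pow, ← pow_mul, ← Real.exp_nat_mul, mul_left_comm, ← Real.exp_add]
        congr 2
        ring

theorem inc : S_Inc := by
  classical
  intro n N μ hμ
  have hsub : (Finset.univ.filter fun W : Fin N × Fin n → Bool =>
      ∃ i l, i ≠ l ∧ μ * n < |∑ j, sg (W (i, j)) * sg (W (l, j))|) ⊆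
      Finset.univ.biUnion fun p : Fin N × Fin N => if p.1 = p.2 then ∅ else
        (Finset.univ.filter fun W : Fin N × Fin n → Bool =>
          μ * n < 1 * ∑ j, sg (W (p.1, j)) * sg (W (p.2, j))) ∪
        (Finset.univ.filter fun W : Fin N × Fin n → Bool =>
          μ * n < (-1) * ∑ j, sg (W (p.1, j)) * sg (W (p.2, j))) := by
    intro W hW
    obtain ⟨i, l, hil, hh⟩ := (Finset.mem_filter.mp hW).2
    rw [Finset.mem_biUnion]
    refine ⟨(i, l), Finset.mem_univ _, ?_⟩
    simp only [if_neg hil]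
    rw [Finset.mem_union, Finset.mem_filter, Finset.mem_filter]
    rcases lt_abs.mp hh with h5 | h5
    · left; exact ⟨Finset.mem_univ _, by rw [one_mul]; exact h5⟩
    · right; exact ⟨Finset.mem_univ _, by rw [neg_one_mul]; exact h5⟩
  have hcard := (Finset.card_le_card hsub).trans Finset.card_biUnion_le
  refine le_trans (Nat.cast_le.mpr hcard) ?_
  rw [Nat.cast_sum]
  have h1 : ∀ p : Fin N × Fin N, (((if p.1 = p.2 then ∅ else
        (Finset.univ.filter fun W : Fin N × Fin n → Bool =>
          μ * n < 1 * ∑ j, sg (W (p.1, j)) * sg (W (p.2, j))) ∪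
        (Finset.univ.filter fun W : Fin N × Fin n → Bool =>
          μ * n < (-1) * ∑ j, sg (W (p.1, j)) * sg (W (p.2, j))) : Finset (Fin N × Fin n → Bool)).card : ℕ) : ℝ) ≤
      2 ^ (N * n) * Real.exp (-(μ ^ 2 * n / 2)) + 2 ^ (N * n) * Real.exp (-(μ ^ 2 * n / 2)) := by
    intro p
    split_ifs with hp
    · simp only [Finset.card_empty, Nat.cast_zero]; positivity
    · refine le_trans (Nat.cast_le.mpr (Finset.card_union_le _ _)) ?_
      rw [Nat.cast_add]
      exact add_le_add (inc_one n N μ hμ p.1 p.2 hp 1 (Or.inl rfl))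
        (inc_one n N μ hμ p.1 p.2 hp (-1) (Or.inr rfl))
  refine (Finset.sum_le_sum fun p _ => h1 p).trans (le_of_eq ?_)
  rw [Finset.sum_const, Finset.card_univ, nsmul_eq_mul, Fintype.card_prod, Fintype.card_fin]
  push_cast
  ring

end Pool.Agent.W347.UP
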